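import Mathlib

namespace Pool.Agent.H.MP_8a180b_co

open Finset

variable {V L W : Type}

def Psd [Fintype V] (Z : V → V → ℝ) : Prop :=
  (∀ i j, Z i j = Z j i) ∧ ∀ x : V → ℝ, 0 ≤ ∑ i, ∑ j, x i * x j * Z i j

def Gram (Z : V → V → ℝ) : Prop :=
  ∃ (κ : Type) (_ : Fintype κ) (z : V → κ → ℝ), ∀ i j, Z i j = ∑ k, z i k * z j k

open scoped MatrixOrder in
theorem Psd.gram [Fintype V] {Z : V → V → ℝ} (h : Psd Z) : Gram Z := by
  classical
  have hp : (Matrix.of Z).PosSemidef := by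
    rw [Matrix.posSemidef_iff_dotProduct_mulVec]
    refine ⟨?_, fun x => ?_⟩
    · ext i j
      simp [h.1 j i]
    · refine (h.2 x).trans (le_of_eq ?_)
      simp only [dotProduct, Matrix.mulVec, Finset.mul_sum, star_trivial, Matrix.of_apply]
      refine Finset.sum_congr rfl (fun i _ => Finset.sum_congr rfl (fun j _ => by ring))
  obtain ⟨B, hB⟩ := CStarAlgebra.nonneg_iff_eq_star_mul_self.mp hp.nonneg
  refine ⟨V, inferInstance, fun i k => B k i, fun i j => ?_⟩
  have := congrFun (congrFun hB i) j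
  simpa [Matrix.mul_apply] using this

theorem Gram.diag {Z : V → V → ℝ} (h : Gram Z) (i : V) : 0 ≤ Z i i := by
  obtain ⟨κ, _, z, hz⟩ := h
  rw [hz]
  exact Finset.sum_nonneg (fun k _ => mul_self_nonneg _)

theorem Gram.zero {Z : V → V → ℝ} (h : Gram Z) (i j : V) (h0 : Z j j = 0) : Z i j = 0 := by
  obtain ⟨κ, _, z, hz⟩ := h
  rw [hz, Finset.sum_eq_zero_iff_of_nonneg (fun k _ => mul_self_nonneg _)] at h0
  rw [hz]
  refine Finset.sum_eq_zero (fun k _ => ?_)
  rw [mul_self_eq_zero.mp (h0 k (Finset.mem_univ _)), mul_zero]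

theorem Gram.symm {Z : V → V → ℝ} (h : Gram Z) (i j : V) : Z i j = Z j i := by
  obtain ⟨κ, _, z, hz⟩ := h
  rw [hz, hz]
  exact Finset.sum_congr rfl (fun k _ => mul_comm _ _)

theorem Gram.two {Z : V → V → ℝ} (h : Gram Z) (i j : V) : 0 ≤ Z i i + Z j j + 2 * Z i j := by
  obtain ⟨κ, _, z, hz⟩ := h
  rw [hz, hz, hz, Finset.mul_sum, ← Finset.sum_add_distrib, ← Finset.sum_add_distrib]
  exact Finset.sum_nonneg (fun k _ => by nlinarith [sq_nonneg (z i k + z j k)])

theorem Gram.comb {Z : V → V → ℝ} {A Q : L → L → ℝ} (hZ : Gram Z) (hA : Gram A) (hQ : Gram Q)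
    (f : W → V) (g : W → L) : Gram (fun a b => Z (f a) (f b) * A (g a) (g b) + Q (g a) (g b)) := by
  obtain ⟨κ, _, z, hz⟩ := hZ
  obtain ⟨κ', _, α, hα⟩ := hA
  obtain ⟨κ'', _, β, hβ⟩ := hQ
  refine ⟨(κ × κ') ⊕ κ'', inferInstance,
    fun a => Sum.elim (fun k => z (f a) k.1 * α (g a) k.2) (β (g a)), fun a b => ?_⟩
  beta_reduce
  rw [Fintype.sum_sum_type, hz, hα, hβ, Finset.sum_mul_sum, Fintype.sum_prod_type]
  simp only [Sum.elim_inl, Sum.elim_inr]
  congr 1
  exact Finset.sum_congr rfl (fun _ _ => Finset.sum_congr rfl (fun _ _ => by ring))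

theorem pair_nonneg [Fintype V] {C : V → V → ℝ} (hC : Psd C) {Z : V → V → ℝ} (hZ : Gram Z)
    (y : V → ℝ) : 0 ≤ ∑ i, ∑ j, y i * y j * C i j * Z i j := by
  obtain ⟨κ, _, z, hz⟩ := hZ
  have : ∑ i, ∑ j, y i * y j * C i j * Z i j =
      ∑ k, ∑ i, ∑ j, (y i * z i k) * (y j * z j k) * C i j := by
    simp only [hz, Finset.mul_sum]
    rw [Finset.sum_comm (γ := κ)]
    refine Finset.sum_congr rfl (fun i _ => ?_)
    rw [Finset.sum_comm (γ := κ)]
    exact Finset.sum_congr rfl (fun _ _ => Finset.sum_congr rfl (fun _ _ => by ring))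
  rw [this]
  exact Finset.sum_nonneg (fun k _ => hC.2 _)

theorem avg [Fintype V] [Fintype L] {C : V → V → ℝ} (hC : Psd C) {X : W → W → ℝ} (hX : Gram X)
    (φ : V → L → W) : Gram (fun l l' => ∑ i, ∑ j, C i j * X (φ i l) (φ j l')) := by
  obtain ⟨μ, _, c, hc⟩ := hC.gram
  obtain ⟨κ, _, z, hz⟩ := hX
  refine ⟨μ × κ, inferInstance, fun l k => ∑ i, c i k.1 * z (φ i l) k.2, fun l l' => ?_⟩
  simp only [hc, hz, Finset.sum_mul_sum, Fintype.sum_prod_type]
  calc ∑ i, ∑ j, ∑ m, ∑ k, c i m * c j m * (z (φ i l) k * z (φ j l') k)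
      = ∑ i, ∑ m, ∑ j, ∑ k, c i m * c j m * (z (φ i l) k * z (φ j l') k) :=
        Finset.sum_congr rfl (fun _ _ => Finset.sum_comm)
    _ = ∑ m, ∑ i, ∑ j, ∑ k, c i m * c j m * (z (φ i l) k * z (φ j l') k) := Finset.sum_comm
    _ = ∑ m, ∑ i, ∑ k, ∑ j, c i m * c j m * (z (φ i l) k * z (φ j l') k) :=
        Finset.sum_congr rfl (fun _ _ => Finset.sum_congr rfl (fun _ _ => Finset.sum_comm))
    _ = ∑ m, ∑ k, ∑ i, ∑ j, c i m * c j m * (z (φ i l) k * z (φ j l') k) :=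
        Finset.sum_congr rfl (fun _ _ => Finset.sum_comm)
    _ = _ := by
        refine Finset.sum_congr rfl (fun _ _ => Finset.sum_congr rfl (fun _ _ =>
          Finset.sum_congr rfl (fun _ _ => Finset.sum_congr rfl (fun _ _ => by ring))))

def Feas (G : SimpleGraph V) (t : ℝ) : Prop :=
  ∃ Z : V → V → ℝ, Gram Z ∧ (∀ i, Z i i ≤ t - 1) ∧ ∀ i j, G.Adj i j → Z i j = -1

theorem Feas.one_le [Nonempty V] {G : SimpleGraph V} {t : ℝ} (h : Feas G t) : 1 ≤ t := by
  obtain ⟨Z, h1, h2, -⟩ := h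
  have := h1.diag (Classical.arbitrary V)
  have := h2 (Classical.arbitrary V)
  linarith

theorem perturb [Fintype V] (G : SimpleGraph V) {Z : V → V → ℝ} (hZ : Psd Z) {δ t : ℝ}
    (hδ : 0 ≤ δ) (h1 : ∀ i, Z i i + Fintype.card V * δ ≤ t - 1)
    (h2 : ∀ i j, G.Adj i j → -δ ≤ Z i j + 1 ∧ Z i j + 1 ≤ δ) : Feas G t := by
  classical
  let E : V → V → ℝ := fun i j => if G.Adj i j then -1 - Z i j else 0
  have hE : ∀ i j, -δ ≤ E i j ∧ E i j ≤ δ := by
    intro i j
    simp only [E]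
    split_ifs with a
    · have := h2 i j a
      constructor <;> linarith
    · constructor <;> linarith
  refine ⟨fun i j => Z i j + (E i j + if i = j then Fintype.card V * δ else 0), Psd.gram ⟨?_, ?_⟩,
    fun i => by simpa [E] using h1 i, fun i j a => by simp [E, a, a.ne]⟩
  · intro i j
    simp only [E, G.adj_comm i j, hZ.1 i j, eq_comm]
  · intro x
    simp only [mul_add, Finset.sum_add_distrib, mul_ite, mul_zero, Finset.sum_ite_eq,
      Finset.mem_univ, if_true]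
    have a := hZ.2 x
    have b : 0 ≤ ∑ i, ∑ j, (x i * x j * E i j + δ * (x i ^ 2 + x j ^ 2) / 2) :=
      Finset.sum_nonneg (fun i _ => Finset.sum_nonneg (fun j _ => by
        have := hE i j
        nlinarith [mul_nonneg (by linarith : 0 ≤ δ + E i j) (sq_nonneg (x i + x j)),
          mul_nonneg (by linarith : 0 ≤ δ - E i j) (sq_nonneg (x i - x j))]))
    have c : ∑ i, ∑ j, (δ * (x i ^ 2 + x j ^ 2) / 2) = ∑ i, x i * x i * (Fintype.card V * δ) := by
      simp only [mul_add, add_div, Finset.sum_add_distrib, Finset.sum_const, Finset.card_univ,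
        nsmul_eq_mul]
      rw [Finset.mul_sum, ← Finset.sum_add_distrib]
      exact Finset.sum_congr rfl (fun i _ => by ring)
    simp only [Finset.sum_add_distrib] at b
    rw [c] at b
    linarith

theorem feas_ex [Fintype V] (G : SimpleGraph V) : ∃ t, Feas G t :=
  ⟨Fintype.card V + 1, perturb G (Z := fun _ _ => 0) (δ := 1) ⟨fun _ _ => rfl, fun x => by simp⟩
    zero_le_one (fun i => by simp) (fun i j _ => by norm_num)⟩

end Pool.Agent.H.MP_8a180b_co
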