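import Pool.Agent.H.MP_8a180b_co.A

namespace Pool.Agent.H.MP_8a180b_co

open Finset

variable {V : Type} [Fintype V]

noncomputable def th (G : SimpleGraph V) : ℝ := sInf {t | Feas G t}

theorem th_le [Nonempty V] {G : SimpleGraph V} {t : ℝ} (h : Feas G t) : th G ≤ t :=
  csInf_le ⟨1, fun _ h => Feas.one_le h⟩ h

theorem le_th {G : SimpleGraph V} {a : ℝ} (h : ∀ t, Feas G t → a ≤ t) : a ≤ th G :=
  le_csInf (feas_ex G) h

theorem cvx {a b x y x' y' : ℝ} (ha : 0 ≤ a) (hb : 0 ≤ b) (hab : a + b = 1) (h1 : x < y)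
    (h2 : x' < y') : a * x + b * x' < a * y + b * y' := by
  rcases ha.eq_or_lt with e | e
  · subst e
    rw [zero_add] at hab
    subst hab
    simpa using h2
  · nlinarith [mul_pos e (sub_pos.mpr h1), mul_nonneg hb (sub_pos.mpr h2).le]

open Classical in
theorem sep [Nonempty V] (G : SimpleGraph V) : ∃ B : V → V → ℝ, Psd B ∧
    (∀ i j, i ≠ j → ¬ G.Adj i j → B i j = 0) ∧
    ∀ η > 0, (th G - η) * ∑ i, B i i < ∑ i, ∑ j, B i j := by
  let O : Set (V → V → ℝ) := {Z | ∃ δ : ℝ, 0 < δ ∧
    (∀ i, Z i i + (Fintype.card V + 1) * δ < th G - 1) ∧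
    ∀ i j, G.Adj i j → -δ < Z i j + 1 ∧ Z i j + 1 < δ}
  have hO : IsOpen O := by
    simp only [O, Set.ofPred_exists, Set.ofPred_and, Set.ofPred_forall]
    refine isOpen_iUnion (fun δ => IsOpen.inter isOpen_const (IsOpen.inter ?_ ?_))
    · exact isOpen_iInter_of_finite (fun i => isOpen_lt (by fun_prop) (by fun_prop))
    · refine isOpen_iInter_of_finite (fun i => isOpen_iInter_of_finite (fun j =>
        isOpen_iInter_of_finite (fun _ => IsOpen.inter ?_ ?_)))
      · exact isOpen_lt (by fun_prop) (by fun_prop)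
      · exact isOpen_lt (by fun_prop) (by fun_prop)
  have cO : Convex ℝ O := by
    rintro Z ⟨δ, d0, d1, d2⟩ Z' ⟨δ', e0, e1, e2⟩ a b ha hb hab
    refine ⟨a * δ + b * δ', by simpa using cvx ha hb hab d0 e0, fun i => ?_, fun i j h => ⟨?_, ?_⟩⟩
    · have := cvx ha hb hab (d1 i) (e1 i)
      simp only [Pi.add_apply, Pi.smul_apply, smul_eq_mul]
      have q : a * (th G - 1) + b * (th G - 1) = th G - 1 := by rw [← add_mul, hab, one_mul]
      linarith
    · have := cvx ha hb hab (d2 i j h).1 (e2 i j h).1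
      simp only [Pi.add_apply, Pi.smul_apply, smul_eq_mul]
      linarith
    · have := cvx ha hb hab (d2 i j h).2 (e2 i j h).2
      simp only [Pi.add_apply, Pi.smul_apply, smul_eq_mul]
      linarith
  have cK : Convex ℝ {Z : V → V → ℝ | Psd Z} := by
    intro Z hZ Z' hZ' a b ha hb _
    refine ⟨fun i j => by simp [hZ.1 i j, hZ'.1 i j], fun x => ?_⟩
    have := add_nonneg (mul_nonneg ha (hZ.2 x)) (mul_nonneg hb (hZ'.2 x))
    refine this.trans (le_of_eq ?_)
    simp only [Finset.mul_sum, ← Finset.sum_add_distrib, Pi.add_apply, Pi.smul_apply, smul_eq_mul]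
    exact Finset.sum_congr rfl (fun _ _ => Finset.sum_congr rfl (fun _ _ => by ring))
  have dis : Disjoint O {Z : V → V → ℝ | Psd Z} := by
    rw [Set.disjoint_left]
    rintro Z ⟨δ, d0, d1, d2⟩ hZ
    have := th_le (perturb G hZ (t := th G - δ) d0.le (fun i => by have := d1 i; linarith)
      (fun i j h => ⟨(d2 i j h).1.le, (d2 i j h).2.le⟩))
    linarith
  obtain ⟨f, u, f1, f2⟩ := geometric_hahn_banach_open cO hO cK dis
  let B0 : V → V → ℝ := fun i j => f (Pi.single i (Pi.single j 1))
  have hf : ∀ Z : V → V → ℝ, f Z = ∑ i, ∑ j, Z i j * B0 i j := by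
    intro Z
    have : Z = ∑ i, ∑ j, Z i j • (Pi.single i (Pi.single j 1) : V → V → ℝ) := by
      funext a b
      simp [Finset.sum_apply, Pi.single_apply, ite_apply]
    conv_lhs => rw [this]
    simp only [map_sum, map_smul, smul_eq_mul, B0]
  have u0 : u ≤ 0 := by
    have := f2 0 ⟨fun _ _ => rfl, fun x => by simp⟩
    simpa using this
  have pos : ∀ Z, Psd Z → 0 ≤ f Z := by
    intro Z hZ
    by_contra c
    push Not at c
    have hl : 0 ≤ (u - 1) / f Z := div_nonneg_of_nonpos (by linarith) c.le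
    have := f2 (((u - 1) / f Z) • Z) ⟨fun i j => by simp [hZ.1 i j], fun x => by
      refine (mul_nonneg hl (hZ.2 x)).trans (le_of_eq ?_)
      simp only [Finset.mul_sum, Pi.smul_apply, smul_eq_mul]
      exact Finset.sum_congr rfl (fun _ _ => Finset.sum_congr rfl (fun _ _ => by ring))⟩
    rw [map_smul, smul_eq_mul, div_mul_cancel₀ _ c.ne] at this
    linarith
  have mem : ∀ η > 0, ∀ Z : V → V → ℝ, (∀ i, Z i i = th G - 1 - η) →
      (∀ i j, G.Adj i j → Z i j = -1) → f Z < 0 := by
    intro η hη Z h1 h2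
    have hc : (0 : ℝ) < Fintype.card V + 2 := by positivity
    refine (f1 Z ⟨η / (Fintype.card V + 2), by positivity, fun i => ?_, fun i j h => ?_⟩).trans_le u0
    · rw [h1]
      have : (Fintype.card V + 1) * (η / (Fintype.card V + 2)) < η := by
        rw [← mul_div_assoc, div_lt_iff₀ hc]
        nlinarith
      linarith
    · rw [h2 i j h]
      have : 0 < η / (Fintype.card V + 2) := by positivity
      constructor <;> linarith
  have z0 : ∀ i j, i ≠ j → ¬ G.Adj i j → B0 i j = 0 := by
    intro i j h1 h2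
    by_contra c
    let Z0 : V → V → ℝ := fun a b => if a = b then th G - 1 - 1 else -1
    have := mem 1 one_pos (Z0 + (-f Z0 / B0 i j) • (Pi.single i (Pi.single j 1) : V → V → ℝ))
      (fun a => by
        by_cases q : a = i
        · subst q; simp [Z0, h1]
        · simp [Z0, q])
      (fun a b h => by
        by_cases q : a = i
        · subst q
          have : b ≠ j := fun e => h2 (e ▸ h)
          simp [Z0, h.ne, this]
        · simp [Z0, h.ne, q])
    rw [map_add, map_smul, smul_eq_mul] at this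
    change f Z0 + -f Z0 / B0 i j * B0 i j < 0 at this
    rw [div_mul_cancel₀ _ c] at this
    linarith
  have sw : ∀ g : V → V → ℝ, (∀ i j, g i j = g j i) →
      ∑ i, ∑ j, g i j * ((B0 i j + B0 j i) / 2) = ∑ i, ∑ j, g i j * B0 i j := by
    intro g hg
    have : ∑ i, ∑ j, g i j * B0 j i = ∑ i, ∑ j, g i j * B0 i j := by
      rw [Finset.sum_comm]
      exact Finset.sum_congr rfl (fun _ _ => Finset.sum_congr rfl (fun _ _ => by rw [hg]))
    simp only [mul_div_assoc', mul_add, add_div, Finset.sum_add_distrib, ← Finset.sum_div]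
    rw [this]
    ring
  refine ⟨fun i j => (B0 i j + B0 j i) / 2, ⟨fun i j => by ring, fun x => ?_⟩, fun i j h1 h2 => ?_,
    fun η hη => ?_⟩
  · rw [sw (fun i j => x i * x j) (fun _ _ => mul_comm _ _), ← hf]
    refine pos _ ⟨fun _ _ => mul_comm _ _, fun y => ?_⟩
    refine (mul_self_nonneg (∑ i, y i * x i)).trans (le_of_eq ?_)
    rw [Finset.sum_mul_sum]
    exact Finset.sum_congr rfl (fun _ _ => Finset.sum_congr rfl (fun _ _ => by ring))
  · simp [z0 i j h1 h2, z0 j i h1.symm (fun a => h2 a.symm)]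
  · have := mem η hη (fun a b => (if a = b then th G - η else 0) - 1) (fun a => by simp; ring)
      (fun a b h => by simp [h.ne])
    rw [hf] at this
    have s1 := sw (fun _ _ => 1) (fun _ _ => rfl)
    simp only [one_mul] at s1
    rw [s1]
    simp only [sub_mul, ite_mul, zero_mul, one_mul, Finset.sum_sub_distrib, Finset.sum_ite_eq,
      Finset.mem_univ, if_true, ← Finset.mul_sum] at this
    simp only [add_self_div_two, sub_mul]
    linarith

open Classical in
theorem weak {G : SimpleGraph V} {B : V → V → ℝ} (hB : Psd B)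
    (h0 : ∀ i j, i ≠ j → ¬ G.Adj i j → B i j = 0) (y : V → ℝ) :
    ∑ i, ∑ j, y i * y j * B i j ≤ th G * ∑ i, y i * y i * B i i := by
  have dg : ∀ i, 0 ≤ y i * y i * B i i := fun i =>
    mul_nonneg (mul_self_nonneg _) (hB.gram.diag i)
  have key : ∀ t, Feas G t → ∑ i, ∑ j, y i * y j * B i j ≤ t * ∑ i, y i * y i * B i i := by
    rintro t ⟨Z, h1, h2, h3⟩
    have a := pair_nonneg hB h1 y
    have b : ∑ i, ∑ j, y i * y j * B i j * Z i j ≤
        ∑ i, ∑ j, ((if i = j then t * (y i * y i * B i i) else 0) - y i * y j * B i j) := by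
      refine Finset.sum_le_sum (fun i _ => Finset.sum_le_sum (fun j _ => ?_))
      by_cases q : i = j
      · subst q
        rw [if_pos rfl]
        nlinarith [mul_le_mul_of_nonneg_left (h2 i) (dg i)]
      · by_cases a : G.Adj i j
        · simp [q, h3 i j a]
        · simp [q, h0 i j q a]
    simp only [Finset.sum_sub_distrib, Finset.sum_ite_eq, Finset.mem_univ, if_true,
      ← Finset.mul_sum] at b
    linarith
  rcases (Finset.sum_nonneg (s := univ) (fun i _ => dg i)).eq_or_lt with e | pos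
  · obtain ⟨t, ht⟩ := feas_ex G
    have := key t ht
    rw [← e, mul_zero] at this ⊢
    exact this
  · rw [← div_le_iff₀ pos]
    exact le_th (fun t ht => by rw [div_le_iff₀ pos]; exact key t ht)

theorem dual [Nonempty V] (G : SimpleGraph V) : ∃ B : V → V → ℝ, Psd B ∧
    (∀ i j, i ≠ j → ¬ G.Adj i j → B i j = 0) ∧ ∑ i, B i i = 1 ∧ ∑ i, ∑ j, B i j = th G := by
  obtain ⟨B, h1, h2, h3⟩ := sep G
  have w := weak h1 h2 (fun _ => 1)
  simp only [one_mul] at w
  have pos : 0 < ∑ i, B i i := by
    have := h3 1 one_pos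
    linarith
  have e : ∑ i, ∑ j, B i j = th G * ∑ i, B i i := by
    refine le_antisymm w (le_of_forall_pos_lt_add (fun ε hε => ?_))
    have := h3 (ε / ∑ i, B i i) (by positivity)
    rw [sub_mul, div_mul_cancel₀ _ pos.ne'] at this
    linarith
  refine ⟨fun i j => B i j / ∑ i, B i i, ⟨fun i j => by simp only [h1.1 i j], fun x => ?_⟩,
    fun i j a b => by simp [h2 i j a b], ?_, ?_⟩
  · simp only [← mul_div_assoc, ← Finset.sum_div]
    exact div_nonneg (h1.2 x) pos.le
  · rw [← Finset.sum_div, div_self pos.ne']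
  · simp only [← Finset.sum_div]
    rw [e, mul_div_assoc, div_self pos.ne', mul_one]

end Pool.Agent.H.MP_8a180b_co
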