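import Mathlib

namespace Pool.Agent.H.MP_8a180b_co

/-- The complementary theta number: the least upper bound `t` for `1 / ⟨c, u i⟩ ^ 2` over
dual orthonormal representations `u` of `G` in some `ℝ ^ d` and unit vectors `c`. -/
noncomputable def thetaBar {V : Type} (G : SimpleGraph V) : ℝ :=
  sInf {t | ∃ (d : ℕ) (u : V → Fin d → ℝ) (c : Fin d → ℝ), c ⬝ᵥ c = 1 ∧ (∀ i, u i ⬝ᵥ u i = 1) ∧
    (∀ i j, G.Adj i j → u i ⬝ᵥ u j = 0) ∧ ∀ i, c ⬝ᵥ u i ≠ 0 ∧ 1 / (c ⬝ᵥ u i) ^ 2 ≤ t}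

/-- Edges of the path `0, 1, …, r` with a loop at `0`. -/
def PAdj {r : ℕ} (i j : Fin (r + 1)) : Prop :=
  i.val + 1 = j.val ∨ j.val + 1 = i.val ∨ (i.val = 0 ∧ j.val = 0)

/-- The quotient map identifying all vertices `(v, r)` into the vertex `none`. -/
def proj {V : Type} {r : ℕ} (v : V) (i : Fin (r + 1)) : Option (V × Fin r) :=
  if h : i.val < r then some (v, ⟨i.val, h⟩) else none

/-- The generalized Mycielskian: the image of the categorical product `G × P_r` under `proj`. -/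
def Myc {V : Type} (r : ℕ) (G : SimpleGraph V) : SimpleGraph (Option (V × Fin r)) where
  Adj a b := a ≠ b ∧ ∃ v w i j, G.Adj v w ∧ PAdj i j ∧ proj v i = a ∧ proj w j = b
  symm := ⟨fun _ _ ⟨h, v, w, i, j, h1, h2, h3, h4⟩ =>
    ⟨h.symm, w, v, j, i, h1.symm, by unfold PAdj at *; omega, h4, h3⟩⟩
  loopless := ⟨fun _ h => h.1 rfl⟩

end Pool.Agent.H.MP_8a180b_co
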