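import Pool.Agent.H.MP_8a180b_co.B
import Pool.Agent.H.MP_8a180b_co.Defs

namespace Pool.Agent.H.MP_8a180b_co

open Finset

variable {V W : Type}

theorem theta_eq [Fintype V] (G : SimpleGraph V) : thetaBar G = th G := by
  unfold thetaBar th
  congr 1
  ext t
  constructor
  · rintro ⟨d, u, c, h1, h2, h3, h4⟩
    refine ⟨fun i j => u i ⬝ᵥ u j / ((c ⬝ᵥ u i) * (c ⬝ᵥ u j)) - 1,
      ⟨Fin d, inferInstance, fun i => (c ⬝ᵥ u i)⁻¹ • u i - c, fun i j => ?_⟩, fun i => ?_,
      fun i j a => by simp [h3 i j a]⟩
    · change _ = ((c ⬝ᵥ u i)⁻¹ • u i - c) ⬝ᵥ ((c ⬝ᵥ u j)⁻¹ • u j - c)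
      have a := (h4 i).1
      have b := (h4 j).1
      simp only [sub_dotProduct, dotProduct_sub, smul_dotProduct, dotProduct_smul, smul_eq_mul,
        h1, dotProduct_comm (u i) c]
      field_simp
      ring
    · have := (h4 i).2
      simp only [h2, ← sq]
      linarith
  · rintro ⟨Z, hZ, h2, h3⟩
    have dg := hZ.diag
    obtain ⟨κ, _, z, hz⟩ := hZ
    classical
    let e := (Fintype.equivFin (Option κ)).symm
    let w : V → Option κ → ℝ := fun i k => k.elim 1 (z i)
    let c : Option κ → ℝ := fun k => k.elim 1 (fun _ => 0)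
    have tr : ∀ (a b : ℝ) (x y : Option κ → ℝ),
        (fun m => a * x (e m)) ⬝ᵥ (fun m => b * y (e m)) = a * b * ∑ k, x k * y k := by
      intro a b x y
      rw [← Equiv.sum_comp e, Finset.mul_sum]
      exact Finset.sum_congr rfl (fun _ _ => by ring)
    have ww : ∀ i j, ∑ k, w i k * w j k = 1 + Z i j := by
      intro i j
      simp [w, hz, Fintype.sum_option]
    have cw : ∀ i, ∑ k, c k * w i k = 1 := by
      intro i
      simp [w, c, Fintype.sum_option]
    have sp : ∀ i, 0 < √(1 + Z i i) := fun i => Real.sqrt_pos.mpr (by linarith [dg i])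
    have ss : ∀ i, √(1 + Z i i) * √(1 + Z i i) = 1 + Z i i :=
      fun i => Real.mul_self_sqrt (by linarith [dg i])
    refine ⟨_, fun i m => (√(1 + Z i i))⁻¹ * w i (e m), fun m => 1 * c (e m), ?_, fun i => ?_,
      fun i j a => ?_, fun i => ?_⟩
    · rw [tr]
      simp [c, Fintype.sum_option]
    · rw [tr, ww, ← mul_inv, ss, inv_mul_cancel₀ (by linarith [dg i])]
    · rw [tr, ww, h3 i j a]
      simp
    · rw [tr, cw, one_mul, mul_one]
      refine ⟨inv_ne_zero (sp i).ne', ?_⟩
      rw [inv_pow, one_div, inv_inv, sq, ss]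
      linarith [h2 i]

theorem proj_adj {r : ℕ} (hr : 1 ≤ r) {G : SimpleGraph V} {v w : V} (h : G.Adj v w)
    {i j : Fin (r + 1)} (p : PAdj i j) : (Myc r G).Adj (proj v i) (proj w j) := by
  refine ⟨fun e => ?_, v, w, i, j, h, p, rfl, rfl⟩
  unfold proj at e
  unfold PAdj at p
  have := i.2
  have := j.2
  split_ifs at e with a b b
  · simp only [Option.some.injEq, Prod.mk.injEq] at e
    exact h.ne e.1
  · omega

theorem two_le [Fintype V] {G : SimpleGraph V} {v w : V} (h : G.Adj v w) : 2 ≤ th G := by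
  refine le_th ?_
  rintro t ⟨Z, h1, h2, h3⟩
  have := h1.two v w
  rw [h3 v w h] at this
  linarith [h2 v, h2 w]

theorem transfer [Fintype V] [Fintype W] [Nonempty V] [Nonempty W] {r : ℕ} (hr : 1 ≤ r)
    (G : SimpleGraph V) (H : SimpleGraph W) (ht : 1 < th G) {s t' : ℝ} (hs : Feas (Myc r G) s)
    (ht' : Feas H t') (hle : th G ≤ t') :
    Feas (Myc r H) (1 + (t' - 1) * ((s - 1) / (th G - 1))) := by
  classical
  obtain ⟨B, b1, b2, b3, b4⟩ := dual G
  obtain ⟨X, x1, x2, x3⟩ := hs
  obtain ⟨Z, z1, z2, z3⟩ := ht'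
  set t := th G with htd
  have t0 : 0 < t := by linarith
  have t1 : 0 < t - 1 := by linarith
  let C : V → V → ℝ := fun i j => ((if i = j then B i i else 0) - B i j / t) / (t - 1)
  have pC : Psd C := by
    refine ⟨fun i j => ?_, fun y => ?_⟩
    · simp only [C, b1.1 i j]
      by_cases q : i = j
      · rw [q]
      · rw [if_neg q, if_neg (Ne.symm q)]
    · have w := weak b1 b2 y
      simp only [C, ← mul_div_assoc, ← Finset.sum_div, mul_sub, Finset.sum_sub_distrib, mul_ite,
        mul_zero, Finset.sum_ite_eq, Finset.mem_univ, if_true]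
      refine div_nonneg ?_ t1.le
      rw [sub_nonneg, div_le_iff₀ t0]
      linarith
  have pB : Psd (fun i j => B i j / t) := by
    refine ⟨fun i j => by simp only [b1.1 i j], fun y => ?_⟩
    simp only [← mul_div_assoc, ← Finset.sum_div]
    exact div_nonneg (b1.2 y) t0.le
  let P : Fin (r + 1) → Fin (r + 1) → ℝ := fun l l' => ∑ i, B i i * X (proj i l) (proj i l')
  let Q : Fin (r + 1) → Fin (r + 1) → ℝ :=
    fun l l' => ∑ i, ∑ j, B i j / t * X (proj i l) (proj j l')
  let A : Fin (r + 1) → Fin (r + 1) → ℝ := fun l l' => ∑ i, ∑ j, C i j * X (proj i l) (proj j l')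
  have gQ : Gram Q := avg pB x1 proj
  have gA : Gram A := avg pC x1 proj
  have eA : ∀ l l', A l l' = (P l l' - Q l l') / (t - 1) := by
    intro l l'
    simp only [A, C, P, Q, div_mul_eq_mul_div _ (t - 1), ← Finset.sum_div, sub_mul,
      Finset.sum_sub_distrib, ite_mul, zero_mul, Finset.sum_ite_eq, Finset.mem_univ, if_true]
  have eP : ∀ l, P l l ≤ s - 1 := by
    intro l
    calc P l l ≤ ∑ i, B i i * (s - 1) :=
          Finset.sum_le_sum (fun i _ => mul_le_mul_of_nonneg_left (x2 _) (b1.gram.diag i))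
      _ = s - 1 := by rw [← Finset.sum_mul, b3, one_mul]
  have eQ : ∀ l l', PAdj l l' → t * Q l l' = P l l' - (t - 1) := by
    intro l l' p
    have : t * Q l l' = ∑ i, ∑ j,
        ((if i = j then B i i * X (proj i l) (proj i l') + B i i else 0) - B i j) := by
      simp only [Q, Finset.mul_sum]
      refine Finset.sum_congr rfl (fun i _ => Finset.sum_congr rfl (fun j _ => ?_))
      by_cases q : i = j
      · subst q
        rw [if_pos rfl]
        field_simp
        ring
      · rw [if_neg q]
        by_cases a : G.Adj i j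
        · rw [x3 _ _ (proj_adj hr a p)]
          field_simp
          ring
        · simp [b2 i j q a]
    rw [this]
    simp only [Finset.sum_sub_distrib, Finset.sum_ite_eq, Finset.mem_univ, if_true,
      Finset.sum_add_distrib, b3, b4, P]
    ring
  have pl : ∀ {U : Type} (v : U), proj v (Fin.last r) = none := fun v => by simp [proj]
  have aL : A (Fin.last r) (Fin.last r) = 0 := by
    rw [eA]
    simp only [P, Q, pl, ← Finset.sum_mul, ← Finset.sum_div, b3, b4]
    rw [div_self t0.ne', sub_self, zero_div]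
  let f : Option (W × Fin r) → W := fun a => a.elim (Classical.arbitrary W) Prod.fst
  let g : Option (W × Fin r) → Fin (r + 1) := fun a => a.elim (Fin.last r) (fun p => p.2.castSucc)
  have gp : ∀ v i, g (proj v i) = i := by
    intro v i
    unfold proj
    split_ifs with q
    · rfl
    · apply Fin.ext
      have := i.2
      simp only [g, Option.elim, Fin.val_last]
      omega
  have fp : ∀ v (i : Fin (r + 1)), i = Fin.last r ∨ f (proj v i) = v := by
    intro v i
    unfold proj
    split_ifs with q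
    · exact Or.inr rfl
    · left
      apply Fin.ext
      have := i.2
      simp only [Fin.val_last]
      omega
  refine ⟨_, Gram.comb z1 gA gQ f g, fun a => ?_, ?_⟩
  · have a1 := gA.diag (g a)
    have a2 := gQ.diag (g a)
    have a3 := mul_le_mul_of_nonneg_right (z2 (f a)) a1
    have a4 := eP (g a)
    have a5 : Q (g a) (g a) ≤ (t' - 1) * (Q (g a) (g a) / (t - 1)) := by
      rw [← mul_div_assoc, le_div_iff₀ t1]
      nlinarith
    have a6 : (t' - 1) * (P (g a) (g a) / (t - 1)) ≤ (t' - 1) * ((s - 1) / (t - 1)) :=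
      mul_le_mul_of_nonneg_left (div_le_div_of_nonneg_right a4 t1.le) (by linarith)
    rw [eA, sub_div] at a3
    simp only [eA, sub_div (P _ _)]
    linarith
  · rintro _ _ ⟨-, v, w, i, j, h, p, rfl, rfl⟩
    simp only [gp]
    have key : Z (f (proj v i)) (f (proj w j)) * A i j = -A i j := by
      rcases fp v i with q | q
      · rw [q, gA.symm, gA.zero _ _ aL]; simp
      rcases fp w j with q' | q'
      · rw [q', gA.zero _ _ aL]; simp
      · rw [q, q', z3 v w h]; ring
    rw [key, eA]
    have := eQ i j p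
    field_simp
    linarith

theorem mono [Fintype V] [Fintype W] [Nonempty V] [Nonempty W] {r : ℕ} (hr : 1 ≤ r)
    (G : SimpleGraph V) (H : SimpleGraph W) (e : th G = th H) :
    th (Myc r H) ≤ th (Myc r G) := by
  refine le_th (fun s hs => ?_)
  have s1 := hs.one_le
  by_cases ht : 1 < th G
  · have t1 : 0 < th G - 1 := by linarith
    have c0 : 0 ≤ (s - 1) / (th G - 1) := div_nonneg (by linarith) t1.le
    have key : ∀ t', Feas H t' → th (Myc r H) ≤ 1 + (t' - 1) * ((s - 1) / (th G - 1)) :=
      fun t' h => th_le (transfer hr G H ht hs h (e ▸ th_le h))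
    rcases c0.eq_or_lt with z | pos
    · obtain ⟨t', h⟩ := feas_ex H
      have := key t' h
      rw [← z] at this
      linarith
    · have : (th (Myc r H) - 1) / ((s - 1) / (th G - 1)) + 1 ≤ th H := by
        refine le_th (fun t' h => ?_)
        have := key t' h
        rw [← le_sub_iff_add_le, div_le_iff₀ pos]
        linarith
      rw [← le_sub_iff_add_le, div_le_iff₀ pos, ← e, mul_div_cancel₀ _ t1.ne'] at this
      linarith
  · refine (th_le (t := 1) ⟨fun _ _ => 0, ⟨Empty, inferInstance, fun _ _ => 0, by simp⟩,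
      fun _ => by simp, ?_⟩).trans s1
    rintro _ _ ⟨-, v, w, -, -, h, -⟩
    have := two_le h
    exfalso
    linarith

end Pool.Agent.H.MP_8a180b_co
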